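import Mathlib
import Pool.Agent.Lib.MP_5ac330_al_h63.Minors

set_option autoImplicit false

/-!
# Matrices with commuting entries

Let `R` be any directly finite ring and `x y = 1` in `M_n(R)`.  If the entries of `x` commute
pairwise, then `y x = 1`.
-/

namespace Pool.Agent.Results.MP_5ac330_al.CommutingEntries

open Matrix Pool.Agent.MP_5ac330_al.CE

theorem result {R : Type*} [Ring R] (finite : ∀ a b : R, a * b = 1 → b * a = 1) (n : ℕ)
    (x y : Matrix (Fin n) (Fin n) R) (comm : ∀ i j k l, x i j * x k l = x k l * x i j)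
    (hxy : x * y = 1) : y * x = 1 := by
  set S : Set R := Set.range (fun p : Fin n × Fin n => x p.1 p.2) with hS
  have hcomm : ∀ a ∈ S, ∀ b ∈ S, a * b = b * a := by
    rintro _ ⟨p, rfl⟩ _ ⟨q, rfl⟩
    exact comm _ _ _ _
  letI : CommRing (Subring.closure S) := Subring.closureCommRingOfComm hcomm
  set X : Matrix (Fin n) (Fin n) (Subring.closure S) :=
    fun i j => ⟨x i j, Subring.subset_closure ⟨(i, j), rfl⟩⟩ with hX
  have hXx : X.map (Subring.closure S).subtype = x := by
    ext i j
    rfl
  obtain ⟨z, hz⟩ := det_surj (M := R) X (by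
    intro v
    refine ⟨y *ᵥ v, fun i => ?_⟩
    have h1 : (x *ᵥ (y *ᵥ v)) i = v i := by rw [mulVec_mulVec, hxy, one_mulVec]
    exact h1) 1
  set d : R := ((det X : Subring.closure S) : R) with hd
  have hdz : d * z = 1 := hz
  have hzd : z * d = 1 := finite _ _ hdz
  set A : Matrix (Fin n) (Fin n) R := (adjugate X).map (Subring.closure S).subtype with hA
  have hAx : A * x = d • (1 : Matrix (Fin n) (Fin n) R) := by
    have h1 := congrArg (fun M : Matrix (Fin n) (Fin n) (Subring.closure S) =>
      M.map (Subring.closure S).subtype) (adjugate_mul X)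
    simp only [Matrix.map_mul, hXx] at h1
    rw [hA, h1]
    ext i j
    by_cases hij : i = j
    · subst hij
      simp [hd]
    · simp [hij]
  have hL : (z • A) * x = 1 := by
    rw [Matrix.smul_mul, hAx, smul_smul, hzd, one_smul]
  have h2 : z • A = y := left_inv_eq_right_inv hL hxy
  rw [← h2, hL]

end Pool.Agent.Results.MP_5ac330_al.CommutingEntries
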