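import Mathlib
import Pool.Agent.Lib.MP_5ac330_al_h63.Mat

set_option autoImplicit false

/-!
# One good entry

Let `R` be a von Neumann regular ring whose matrix ring `M_n(R)`, `n ≥ 1`, is directly finite (for
`n = 1` this is the hypothesis of Q1), and let `I` be an ideal all of whose corners `e R e`
(`e ∈ I` idempotent) are unit-regular; `R / I` is arbitrary.  If `x y = 1` in `M_{n+1}(R)` and one
single entry of some `P x Q` or `P y Q` (`P`, `Q` invertible) is unit-regular modulo `I`, then
`y x = 1`.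
-/

namespace Pool.Agent.Results.MP_5ac330_al.OneEntry

open Pool.Agent.MP_5ac330_al.OE

/-- The corner `e R e` is a unit-regular ring: every `z ∈ e R e` is `z u z` for some unit `u` of
the ring `e R e`, whose identity element is `e`. -/
def UnitRegularCorner {R : Type*} [Ring R] (e : R) : Prop :=
  ∀ z : R, e * z * e = z →
    ∃ u v : R, e * u * e = u ∧ e * v * e = v ∧ u * v = e ∧ v * u = e ∧ z * u * z = z

/-- `a` is unit-regular modulo `I`: the class of `a` in `R / I` is `a u a` for a unit `u` of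
`R / I`. -/
def UnitRegularMod {R : Type*} [Ring R] (I : Ideal R) (a : R) : Prop :=
  ∃ u v : R, u * v - 1 ∈ I ∧ v * u - 1 ∈ I ∧ a * u * a - a ∈ I

theorem result {R : Type*} [Ring R] (regular : ∀ a : R, ∃ x, a * x * a = a)
    (n : ℕ) (hn : 1 ≤ n)
    (finite : ∀ A B : Matrix (Fin n) (Fin n) R, A * B = 1 → B * A = 1)
    (I : Ideal R) [I.IsTwoSided] (corners : ∀ e ∈ I, e * e = e → UnitRegularCorner e)
    (x y : Matrix (Fin (n + 1)) (Fin (n + 1)) R) (hxy : x * y = 1)
    (P Q : (Matrix (Fin (n + 1)) (Fin (n + 1)) R)ˣ) (i j : Fin (n + 1))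
    (h : UnitRegularMod I ((P * x * Q : Matrix (Fin (n + 1)) (Fin (n + 1)) R) i j) ∨
      UnitRegularMod I ((P * y * Q : Matrix (Fin (n + 1)) (Fin (n + 1)) R) i j)) :
    y * x = 1 := by
  obtain ⟨m, rfl⟩ : ∃ m, n = m + 1 := ⟨n - 1, by omega⟩
  have hI : URCorners I := by
    intro e he hee z h1 h2
    obtain ⟨u, v, hu, hv, huv, hvu, hz⟩ := corners e he hee z (by rw [h1, h2])
    refine ⟨u, v, ?_, ?_, huv, hvu, hz⟩
    · rw [← hu, mul_assoc, hee]
    · rw [← hv, mul_assoc, hee]
  rcases h with h | h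
  · exact units_two P Q (anyEntry regular I hI finite _ _ (units_one P Q hxy) i j (Or.inl h))
  · have h1 := units_one Q⁻¹ P⁻¹ hxy
    rw [inv_inv, inv_inv] at h1
    have h2 := anyEntry regular I hI finite _ _ h1 i j (Or.inr h)
    refine units_two Q⁻¹ P⁻¹ ?_
    rw [inv_inv, inv_inv]
    exact h2

end Pool.Agent.Results.MP_5ac330_al.OneEntry
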